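import Pool.Agent.H50.NC.Targets

/-!
# Row RA of `nck_modules` (helper63)

No rung is contained in `S`: the case (III) or a smaller side.
-/

set_option autoImplicit false

namespace Pool.Agent.H63.NCK

open Pool.Agent.H48.ER Pool.Agent.H50.NC

theorem inj3 : ∀ i k l : Fin 3, i ≠ k → i ≠ l → k ≠ l → Function.Injective ![i, k, l] := by
  decide

theorem third : ∀ i k : Fin 3, i ≠ k → ∃ l, l ≠ i ∧ l ≠ k := by
  decide

theorem EPr.perm {V : Type} {G : SimpleGraph V} {a b : Fin 3 → V} {n : Fin 3 → ℕ}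
    {P : Fin 3 → Set V} (h : EPr G a b n P) (σ : Fin 3 → Fin 3) (hσ : Function.Injective σ) :
    EPr G (fun i => a (σ i)) (fun i => b (σ i)) (fun i => n (σ i)) (fun i => P (σ i)) :=
  ⟨h.1.perm σ hσ, fun i => h.2 (σ i)⟩

/-- (RA) -/
theorem pf_RA (hEXT : T_EXT) (hPAA : T_PAA) (hDA : T_DA) : T_RA := by
  classical
  intro V G a b n P S X j hNOH hNOP hP hSX haj hfull
  have hex : ∀ i, ∃ (r : ℕ) (x : V), Ex G S (P i) (a i) r x ∧ r ≤ n i ∧ x ∈ P i ∧
      (x = b i ↔ r = n i) ∧ (x = a i ↔ r = 0) ∧ (x = b i → Bx S (P i) (b i)) := fun i =>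
    hEXT V G (n i) (a i) (b i) (P i) S (hP.1.ip i) (hfull i)
  choose r x hEx hrn hxP hxb hxa hBx using hex
  have hxS : ∀ i, x i ∉ S := by
    intro i
    obtain ⟨R, _, _, h, _⟩ := hEx i
    exact h
  have haS : ∀ i, x i ≠ a i → a i ∈ S := by
    intro i hi
    obtain ⟨R, h1, _, _, h4⟩ := hEx i
    rcases h4 (a i) h1.left_mem with h | h
    · exact absurd h.symm hi
    · exact h
  have hab : ∀ i, x i = a i → x i ≠ b i := by
    intro i h h'
    exact hP.1.a_ne_b i i (h.symm.trans h')
  have hZe : ∀ i, x i = a i → Even (r i) := by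
    intro i h
    rw [(hxa i).1 h]
    exact ⟨0, rfl⟩
  have hBe : ∀ i, x i = b i → Even (r i) := by
    intro i h
    rw [(hxb i).1 h]
    exact hP.2 i
  have hZj : x j ≠ a j := by
    intro h
    exact hxS j (h ▸ haj)
  -- the pairs
  have hpair : ∀ i k, i ≠ k → ¬ (x i = a i ∧ x k = a k) → ¬ (x i = b i ∧ x k = b k) →
      Odd (r i + r k) := by
    intro i k hik h1 h2
    refine hPAA V G a b n P i k S X (r i) (r k) (x i) (x k) hP hSX hik (hEx i) (hEx k) ?_ ?_
    · by_cases h : x i = a i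
      · right
        exact haS k fun h' => h1 ⟨h, h'⟩
      · left
        exact haS i h
    · intro hadj
      rcases (hP.1.adj i k hik _ (hxP i) _ (hxP k)).1 hadj with h | h
      · exact h1 h
      · exact h2 h
  -- two rungs up to the last vertex
  have hDAc : ∀ i k l, i ≠ k → i ≠ l → k ≠ l → x i = b i → x k = b k →
      (x l = b l ∨ Odd (r l)) → Sm G S := by
    intro i k l hik hil hkl hi hk hl
    have hσ := inj3 i k l hik hil hkl
    have hP' := EPr.perm hP _ hσ
    refine hDA V G _ _ _ _ S X hNOH hNOP hP' hSX ?_ ?_ ?_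
    · exact hBx i hi
    · exact hBx k hk
    · rcases hl with h | h
      · exact Or.inl (hBx l h)
      · exact Or.inr ⟨r l, x l, hEx l, h⟩
  by_cases hZ : ∃ i, x i = a i
  · obtain ⟨i, hi⟩ := hZ
    have hij : i ≠ j := by
      rintro rfl
      exact hZj hi
    obtain ⟨l, hli, hlj⟩ := third i j hij
    have hrj : Odd (r j) := by
      have h := hpair j i hij.symm (fun h => hZj h.1) (fun h => hab i hi h.2)
      have h' := hZe i hi
      rcases h with ⟨u, hu⟩
      rcases h' with ⟨v, hv⟩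
      exact ⟨u - v, by omega⟩
    have hBj : x j ≠ b j := by
      intro h
      exact (Nat.not_even_iff_odd.2 hrj) (hBe j h)
    have hl : x l = a l := by
      by_contra hl
      have h := hpair l i hli (fun h => hl h.1) (fun h => hab i hi h.2)
      have h' := hZe i hi
      have h2 := hpair l j hlj (fun h => hl h.1) (fun h => hBj h.2)
      rcases h with ⟨u, hu⟩
      rcases h' with ⟨v, hv⟩
      rcases h2 with ⟨w, hw⟩
      rcases hrj with ⟨t, ht⟩
      omega
    left
    have hσ := inj3 j i l hij.symm hlj.symm hli.symm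
    have hP' := EPr.perm hP _ hσ
    refine ⟨_, _, _, _, r j, x j, hP', haj, ?_, ?_, hEx j, hrj, hBj, hxP j⟩
    · show a i ∉ S
      rw [← hi]
      exact hxS i
    · show a l ∉ S
      rw [← hl]
      exact hxS l
  · right
    have hnZ : ∀ i, x i ≠ a i := fun i h => hZ ⟨i, h⟩
    have hpair' : ∀ i k, i ≠ k → ¬ (x i = b i ∧ x k = b k) → Odd (r i + r k) := fun i k hik h =>
      hpair i k hik (fun h' => hnZ i h'.1) h
    have d01 : (0 : Fin 3) ≠ 1 := by decide
    have d02 : (0 : Fin 3) ≠ 2 := by decide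
    have d12 : (1 : Fin 3) ≠ 2 := by decide
    have hodd : ∀ i k, Even (r i) → Odd (r i + r k) → Odd (r k) := by
      intro i k h h'
      rcases h with ⟨u, hu⟩
      rcases h' with ⟨v, hv⟩
      exact ⟨v - u, by omega⟩
    by_cases b0 : x 0 = b 0
    · by_cases b1 : x 1 = b 1
      · by_cases b2 : x 2 = b 2
        · exact hDAc 0 1 2 d01 d02 d12 b0 b1 (Or.inl b2)
        · exact hDAc 0 1 2 d01 d02 d12 b0 b1
            (Or.inr (hodd 0 2 (hBe 0 b0) (hpair' 0 2 d02 fun h => b2 h.2)))
      · by_cases b2 : x 2 = b 2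
        · exact hDAc 0 2 1 d02 d01 d12.symm b0 b2
            (Or.inr (hodd 0 1 (hBe 0 b0) (hpair' 0 1 d01 fun h => b1 h.2)))
        · exfalso
          have h1 := hodd 0 1 (hBe 0 b0) (hpair' 0 1 d01 fun h => b1 h.2)
          have h2 := hodd 0 2 (hBe 0 b0) (hpair' 0 2 d02 fun h => b2 h.2)
          have h3 := hpair' 1 2 d12 fun h => b1 h.1
          rcases h1 with ⟨u, hu⟩
          rcases h2 with ⟨v, hv⟩
          rcases h3 with ⟨w, hw⟩
          omega
    · by_cases b1 : x 1 = b 1
      · by_cases b2 : x 2 = b 2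
        · exact hDAc 1 2 0 d12 d01.symm d02.symm b1 b2
            (Or.inr (hodd 1 0 (hBe 1 b1) (hpair' 1 0 d01.symm fun h => b0 h.2)))
        · exfalso
          have h1 := hodd 1 0 (hBe 1 b1) (hpair' 1 0 d01.symm fun h => b0 h.2)
          have h2 := hodd 1 2 (hBe 1 b1) (hpair' 1 2 d12 fun h => b2 h.2)
          have h3 := hpair' 0 2 d02 fun h => b0 h.1
          rcases h1 with ⟨u, hu⟩
          rcases h2 with ⟨v, hv⟩
          rcases h3 with ⟨w, hw⟩
          omega
      · exfalso
        have h1 := hpair' 0 1 d01 fun h => b0 h.1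
        have h2 := hpair' 0 2 d02 fun h => b0 h.1
        have h3 := hpair' 1 2 d12 fun h => b1 h.1
        rcases h1 with ⟨u, hu⟩
        rcases h2 with ⟨v, hv⟩
        rcases h3 with ⟨w, hw⟩
        omega

end Pool.Agent.H63.NCK
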